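import Mathlib
import Pool.Agent.Y709.Kum.Stm2

/-! Project Kum: the order of an extension of a Kummer group by a `p`-group. -/

set_option autoImplicit false
set_option linter.all false

open Polynomial

namespace Pool.Agent.Y427.Kum

theorem core (k : Type) [Field k] (O : Type) [CommRing O] [Algebra k[X] O] (Γ : Type) [Group Γ]
    [MulSemiringAction Γ O] [IsGaloisGroup Γ k[X] O] [FaithfulSMul k[X] O] (μ : ℕ)
    (hμ : 0 < μ) (w : O) (g : k[X]) (hw : w ^ μ = algebraMap k[X] O g) (hg : g ≠ 0)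
    (h : ∀ σ : Γ, ∃ c : k, σ • w = algebraMap k[X] O (C c) * w) :
    ∃ χ : Γ →* rootsOfUnity μ k, χ.ker = MulAction.stabilizer Γ w := by
  have hcomm : SMulCommClass Γ k[X] O := IsGaloisGroup.commutes
  have hinj : Function.Injective (algebraMap k[X] O) := FaithfulSMul.algebraMap_injective _ _
  have hw0 : w ≠ 0 := by
    rintro rfl
    rw [zero_pow hμ.ne'] at hw
    exact hg (hinj (by rw [← hw, map_zero]))
  choose c hc using h
  have huniq : ∀ a b : k, algebraMap k[X] O (C a) * w = algebraMap k[X] O (C b) * w → a = b := by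
    intro a b hab
    by_contra hne
    apply hw0
    have h1 : algebraMap k[X] O (C (a - b)) * w = 0 := by
      rw [map_sub, map_sub, sub_mul, hab, sub_self]
    have h2 : algebraMap k[X] O (C (a - b)⁻¹) * (algebraMap k[X] O (C (a - b)) * w) = w := by
      rw [← mul_assoc, ← map_mul, ← map_mul, inv_mul_cancel₀ (sub_ne_zero.2 hne), map_one, map_one,
        one_mul]
    rw [← h2, h1, mul_zero]
  have hone : c 1 = 1 := by
    apply huniq
    rw [← hc, one_smul, map_one, map_one, one_mul]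
  have hmul : ∀ σ τ, c (σ * τ) = c σ * c τ := by
    intro σ τ
    apply huniq
    rw [← hc, mul_smul, hc τ, smul_mul', smul_algebraMap, hc σ, map_mul, map_mul]
    ring
  have hpow : ∀ σ, c σ ^ μ = 1 := by
    intro σ
    have h1 : σ • (w ^ μ) = w ^ μ := by rw [hw, smul_algebraMap]
    rw [smul_pow', hc σ, mul_pow, hw, ← map_pow, ← map_mul, ← C_pow] at h1
    have h2 := hinj h1
    have h3 : C (c σ ^ μ) * g = C 1 * g := by rw [h2, map_one, one_mul]
    exact C_injective (mul_right_cancel₀ hg h3)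
  let u : Γ → kˣ := fun σ => Units.ofPowEqOne (c σ) μ (hpow σ) hμ.ne'
  have hu : ∀ σ, ((u σ : kˣ) : k) = c σ := fun σ => Units.val_ofPowEqOne _ _ (hpow σ) hμ.ne'
  let χ : Γ →* rootsOfUnity μ k :=
    { toFun := fun σ => ⟨u σ, by
        rw [mem_rootsOfUnity]
        exact Units.ext (by rw [Units.val_pow_eq_pow_val, hu, hpow, Units.val_one])⟩
      map_one' := Subtype.ext (Units.ext (by rw [hu, hone]; rfl))
      map_mul' := fun σ τ => Subtype.ext (Units.ext (by
        change ((u (σ * τ) : kˣ) : k) = (u σ : k) * (u τ : k)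
        rw [hu, hu, hu, hmul])) }
  refine ⟨χ, ?_⟩
  ext σ
  rw [MonoidHom.mem_ker, MulAction.mem_stabilizer_iff]
  constructor
  · intro h1
    have h2 : ((u σ : kˣ) : k) = 1 := by
      have := congrArg (fun z : rootsOfUnity μ k => ((z : kˣ) : k)) h1
      exact this
    rw [hc σ, ← hu, h2, map_one, map_one, one_mul]
  · intro h1
    have h2 : c σ = 1 := by
      apply huniq
      rw [← hc, h1, map_one, map_one, one_mul]
    exact Subtype.ext (Units.ext (by
      change ((u σ : kˣ) : k) = 1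
      rw [hu, h2]))

theorem card_ru (k : Type) [Field k] (μ : ℕ) (hμ : 0 < μ) : Nat.card (rootsOfUnity μ k) ∣ μ := by
  have : NeZero μ := ⟨hμ.ne'⟩
  obtain ⟨z, hz⟩ := IsCyclic.exists_generator (α := rootsOfUnity μ k)
  rw [← orderOf_eq_card_of_forall_mem_zpowers hz]
  apply orderOf_dvd_of_pow_eq_one
  exact Subtype.ext ((mem_rootsOfUnity _ _).1 z.2)

theorem main (k : Type) [Field k] [Finite k] (O : Type) [CommRing O] [Algebra k[X] O] (Γ : Type)
    [Group Γ] [Finite Γ] [MulSemiringAction Γ O] [IsGaloisGroup Γ k[X] O] [FaithfulSMul k[X] O]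
    (p : ℕ) [Fact p.Prime] (μ a : ℕ) (hμ : 0 < μ) (w : Fin a → O)
    (g : Fin a → k[X]) (hw : ∀ i, w i ^ μ = algebraMap k[X] O (g i)) (hg : ∀ i, g i ≠ 0)
    (h : ∀ i, ∀ σ : Γ, ∃ c : k, σ • w i = algebraMap k[X] O (C c) * w i)
    (hp : IsPGroup p (⨅ i, MulAction.stabilizer Γ (w i) : Subgroup Γ)) :
    ∃ n₀ c : ℕ, Nat.card Γ = n₀ * p ^ c ∧ n₀ ∣ μ ^ a := by
  choose χ hχ using fun i => core k O Γ μ hμ (w i) (g i) (hw i) (hg i) (h i)
  let Φ : Γ →* (Fin a → rootsOfUnity μ k) := MonoidHom.pi χ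
  have hker : Φ.ker = ⨅ i, MulAction.stabilizer Γ (w i) := by
    ext σ
    rw [Subgroup.mem_iInf, MonoidHom.mem_ker]
    constructor
    · intro h1 i
      rw [← hχ i, MonoidHom.mem_ker]
      exact congrFun h1 i
    · intro h1
      funext i
      have := h1 i
      rw [← hχ i, MonoidHom.mem_ker] at this
      exact this
  rw [← hker] at hp
  obtain ⟨c, hc⟩ := IsPGroup.iff_card.1 hp
  refine ⟨Nat.card (Γ ⧸ Φ.ker), c, ?_, ?_⟩
  · rw [← hc]
    exact Subgroup.card_eq_card_quotient_mul_card_subgroup Φ.ker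
  · rw [Nat.card_congr (QuotientGroup.quotientKerEquivRange Φ).toEquiv]
    refine (Subgroup.card_subgroup_dvd_card Φ.range).trans ?_
    have : Nat.card (Fin a → rootsOfUnity μ k) = Nat.card (rootsOfUnity μ k) ^ a := by
      rw [Nat.card_fun]
      simp
    rw [this]
    exact pow_dvd_pow_of_dvd (card_ru k μ hμ) a

theorem kummerOrder : Pool.Agent.Y709.Kum.KummerOrder := by
  intro k _ _ O _ _ Γ _ _ _ _ _ p _ μ a hμ _ w g hw hg h hp
  exact main k O Γ p μ a hμ w g hw hg h hp

end Pool.Agent.Y427.Kum
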